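import Mathlib
import Pool.Agent.L0h15.MA.Irr
import Pool.Agent.L0h15.MA.Null

/-!
# Mazur's question for varieties with automorphisms

`K` is a number field and `X` is a closed subset of `ℙⁿ` over `K`, for instance an irreducible
projective variety. `L` is the completion of `K` at a place `v`. For a point `x` of `X(L)` let `Z_x`
be the local Zariski closure of the rational points at `x`, the intersection of the Zariski
closures of the sets `X(K) ∩ U`, where `U` runs through the neighbourhoods of `x`. Mazur asks if
there are only finitely many different sets `Z_x`.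

Let `Γ` be a group of automorphisms of `X` over `K`. A subset of `X(K)` is called periodic if it is
stable under a subgroup of finite index of `Γ`.

(1) Let `Γ` be equicontinuous on `X(K)` for the `v`-adic distance. Then all `Z_x` are periodic.

(2) Let `Γ` be equicontinuous at `v` and let the rational points of `X` outside of a closed
subset `Y` lie in finitely many orbits of `Γ`. If Mazur's question has a positive answer for `Y`
(for instance, if `Y` is empty), then it has a positive answer for `X`.

(3) Let `Γ` be equicontinuous at `v` and suppose that all but finitely many of the periodic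
irreducible closed subsets of `X` in which the rational points are dense are contained in `Y`. If
Mazur's question has a positive answer for `Y`, then it has a positive answer for `X`.

(4) If `Γ` is generated by automorphisms which have good reduction at the nonarchimedean place `v`,
then `Γ` is equicontinuous at `v`.

(5) If `Γ` is finitely generated, then `Γ` is equicontinuous at all but finitely many
nonarchimedean places `v`: those with `|a|_v ≤ 1` for all elements `a` of a finite set.

(6) If the elements of `Γ` are members of one algebraic family of morphisms, parametrised by a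
projective variety, then `Γ` is equicontinuous at all places. This holds for the translations of an
abelian variety.

(7) So if `Γ` is finitely generated and all but finitely many of the periodic irreducible closed
subsets of `X` in which the rational points are dense are contained in `Y`, then for all but
finitely many nonarchimedean places `v` a positive answer to Mazur's question for `Y` at `v`
implies a positive answer for `X` at `v`. For example, let `X` be a smooth projective surface with
an automorphism of positive entropy, for instance a K3 surface, and let `Γ` be generated by it. By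
theorems of Cantat, Silverman and Kawaguchi there are only finitely many periodic curves, and only
finitely many periodic rational points outside of their union `Y`.

Idea of the proof. The closure of an equicontinuous group is compact, so that the elements of `Γ`
which move all rational points by at most `ε` generate a subgroup of finite index. These elements
map the rational points in a ball around `x` to the rational points in a slightly larger ball, and
both have the Zariski closure `Z_x` if the balls are small.
-/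

set_option autoImplicit false

open MvPolynomial Topology
open scoped LinearAlgebra.Projectivization

namespace Pool.Agent.Results.MP_f9f755_nt.AutomorphismGroups

section

variable {K : Type} [Field K] {n : ℕ}

/-- the set `X(K)` of the rational points of the closed subset `X` of `ℙⁿ` defined by the forms in
`S` -/
def Points (S : Set (MvPolynomial (Fin (n + 1)) K)) : Type :=
  {p : ℙ K (Fin (n + 1) → K) // ∀ s ∈ S, eval p.rep s = 0}

/-- The map `g` from `X(K)` to itself is given by a morphism of `X` over `K`: there are finitely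
many vectors of forms, without common zeros on `X` over the algebraic closure, each of which
describes `g` at the rational points where it does not vanish. -/
def IsMorphism (S : Set (MvPolynomial (Fin (n + 1)) K)) (g : Points S → Points S) : Prop :=
  ∃ (m : ℕ) (d : Fin m → ℕ) (Φ : Fin m → Fin (n + 1) → MvPolynomial (Fin (n + 1)) K),
    (∀ i j, (Φ i j).IsHomogeneous (d i)) ∧
    (∀ v : Fin (n + 1) → AlgebraicClosure K, v ≠ 0 → (∀ s ∈ S, aeval v s = 0) →
      ∃ i j, aeval v (Φ i j) ≠ 0) ∧
    ∀ (p : Points S) (i : Fin m), ∃ c : K, (fun j => eval p.1.rep (Φ i j)) = c • (g p).1.rep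

/-- the Zariski closed subsets of `X(K)` -/
def IsClosedSet {S : Set (MvPolynomial (Fin (n + 1)) K)} (Z : Set (Points S)) : Prop :=
  ∃ F : Set (MvPolynomial (Fin (n + 1)) K), (∀ f ∈ F, ∃ d : ℕ, f.IsHomogeneous d) ∧
    Z = {p : Points S | ∀ f ∈ F, eval p.1.rep f = 0}

/-- the irreducible closed subsets of `X(K)`; they correspond to the irreducible closed subsets of
`X` in which the rational points are dense -/
def IsIrreducibleSet {S : Set (MvPolynomial (Fin (n + 1)) K)} (Z : Set (Points S)) : Prop :=
  IsClosedSet Z ∧ Z.Nonempty ∧ ∀ A B : Set (Points S), IsClosedSet A → IsClosedSet B →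
    Z ⊆ A ∪ B → Z ⊆ A ∨ Z ⊆ B

/-- the subsets of `X(K)` which are stable under a subgroup of finite index -/
def IsPeriodic {S : Set (MvPolynomial (Fin (n + 1)) K)} (Γ : Type) [Group Γ]
    [MulAction Γ (Points S)] (Z : Set (Points S)) : Prop :=
  ∃ H : Subgroup Γ, H.FiniteIndex ∧ ∀ γ ∈ H, ∀ p ∈ Z, γ • p ∈ Z

/-- the rational points of the intersection of `X` with the closed set defined by `S'` -/
def subset (S S' : Set (MvPolynomial (Fin (n + 1)) K)) : Set (Points S) :=
  {p | ∀ f ∈ S', eval p.1.rep f = 0}

variable {L : Type} [NontriviallyNormedField L] (σ : K →+* L)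

/-- the ideal of `Z_x`: the polynomials which vanish at all `K`-points of `X` near `x` -/
def localIdeal (S : Set (MvPolynomial (Fin (n + 1)) K)) (x : Fin (n + 1) → L) :
    Set (MvPolynomial (Fin (n + 1)) K) :=
  {f | ∃ U ∈ 𝓝 x, ∀ y : Fin (n + 1) → K, y ≠ 0 → (∀ g ∈ S, eval y g = 0) →
    (∃ c : L, c ≠ 0 ∧ (fun i => c * σ (y i)) ∈ U) → ∀ t : K, eval (t • y) f = 0}

/-- the set of the ideals of the sets `Z_x`, for all points `x` of `X(L)` -/
def localIdeals (S : Set (MvPolynomial (Fin (n + 1)) K)) :
    Set (Set (MvPolynomial (Fin (n + 1)) K)) :=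
  {J | ∃ x : Fin (n + 1) → L, x ≠ 0 ∧ (∀ g ∈ S, eval₂ σ x g = 0) ∧ J = localIdeal σ S x}

/-- the rational points of `Z_x` -/
def localClosure (S : Set (MvPolynomial (Fin (n + 1)) K)) (x : Fin (n + 1) → L) :
    Set (Points S) :=
  {p | ∀ f ∈ localIdeal σ S x, eval p.1.rep f = 0}

/-- the distance of two rational points: the maximum of the norms of the minors, divided by the
norms of the two vectors -/
noncomputable def distance {S : Set (MvPolynomial (Fin (n + 1)) K)} (p q : Points S) : ℝ :=
  ‖fun a : Fin (n + 1) × Fin (n + 1) =>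
      σ (p.1.rep a.1) * σ (q.1.rep a.2) - σ (p.1.rep a.2) * σ (q.1.rep a.1)‖ /
    (‖fun i => σ (p.1.rep i)‖ * ‖fun i => σ (q.1.rep i)‖)

/-- The group `Γ` is equicontinuous on `X(K)`. -/
def IsEquicontinuous (S : Set (MvPolynomial (Fin (n + 1)) K)) (Γ : Type) [Group Γ]
    [MulAction Γ (Points S)] : Prop :=
  ∀ ε : ℝ, 0 < ε → ∃ δ : ℝ, 0 < δ ∧ ∀ (γ : Γ) (p q : Points S),
    distance σ p q < δ → distance σ (γ • p) (γ • q) < ε

/-- The map `g` from `X(K)` to itself has good reduction: it is given by forms with integral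
coefficients, and at every rational point one of these vectors of forms does not vanish modulo the
maximal ideal. -/
def HasGoodReduction (S : Set (MvPolynomial (Fin (n + 1)) K)) (g : Points S → Points S) : Prop :=
  ∃ (m : ℕ) (d : Fin m → ℕ) (Φ : Fin m → Fin (n + 1) → MvPolynomial (Fin (n + 1)) K),
    (∀ i j, (Φ i j).IsHomogeneous (d i)) ∧ (∀ i j e, ‖σ (coeff e (Φ i j))‖ ≤ 1) ∧
    ∀ p : Points S,
      (∃ i, ‖fun j => σ (eval p.1.rep (Φ i j))‖ = ‖fun j => σ (p.1.rep j)‖ ^ d i) ∧
      ∀ i, ∃ c : K, (fun j => eval p.1.rep (Φ i j)) = c • (g p).1.rep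

/-- The elements of `Γ` are members of an algebraic family of morphisms: there are a projective
variety `T` and vectors of bihomogeneous forms without common zeros on `T × X` over the algebraic
closure, and for every `γ` there is a rational point `t` of `T`, such that these forms
describe `γ` at `(t, p)`, for all rational points `p` of `X`. -/
def InFamily (S : Set (MvPolynomial (Fin (n + 1)) K)) (Γ : Type) [Group Γ]
    [MulAction Γ (Points S)] : Prop :=
  ∃ (N : ℕ) (T : Set (MvPolynomial (Fin N) K)) (m : ℕ) (a b : Fin m → ℕ)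
    (Φ : Fin m → Fin (n + 1) → MvPolynomial (Fin N ⊕ Fin (n + 1)) K),
    (∀ s ∈ T, ∃ d : ℕ, s.IsHomogeneous d) ∧
    (∀ i j, ∀ e ∈ (Φ i j).support, ∑ k, e (Sum.inl k) = a i ∧ ∑ k, e (Sum.inr k) = b i) ∧
    (∀ u : Fin N → AlgebraicClosure K, u ≠ 0 → (∀ s ∈ T, aeval u s = 0) →
      ∀ v : Fin (n + 1) → AlgebraicClosure K, v ≠ 0 → (∀ s ∈ S, aeval v s = 0) →
      ∃ i j, aeval (Sum.elim u v) (Φ i j) ≠ 0) ∧
    ∀ γ : Γ, ∃ t : Fin N → K, t ≠ 0 ∧ (∀ s ∈ T, eval t s = 0) ∧
      ∀ (p : Points S) (i : Fin m), ∃ c : K,
        (fun j => eval (Sum.elim t p.1.rep) (Φ i j)) = c • (γ • p).1.rep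

theorem param {S : Set (MvPolynomial (Fin (n + 1)) K)} (hS : ∀ f ∈ S, ∃ d : ℕ, f.IsHomogeneous d) :
    Pool.Agent.L0h15.MA.Param (fun p : Points S => p.1.rep) S where
  ne_zero p := p.1.rep_nonzero
  mem p := p.2
  surj := by
    intro y hy hyS
    obtain ⟨a, ha⟩ := Projectivization.exists_smul_eq_mk_rep K y hy
    have hmem : ∀ s ∈ S, eval (Projectivization.mk K y hy).rep s = 0 := by
      intro s hs
      obtain ⟨d, hd⟩ := hS s hs
      rw [← ha, Units.smul_def, Pool.Agent.L0h15.MZ.eval_smul' hd, hyS s hs, mul_zero]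
    refine ⟨⟨Projectivization.mk K y hy, hmem⟩, ((a⁻¹ : Kˣ) : K), (a⁻¹).ne_zero, ?_⟩
    change y = ((a⁻¹ : Kˣ) : K) • (Projectivization.mk K y hy).rep
    rw [← ha, ← Units.smul_def, inv_smul_smul]

theorem isClosedSet_iff [Infinite K] {S : Set (MvPolynomial (Fin (n + 1)) K)}
    (Z : Set (Points S)) : IsClosedSet Z ↔
      IsClosed[Pool.Agent.L0h15.MA.zar (fun p : Points S => p.1.rep)] Z := by
  rw [Pool.Agent.L0h15.MA.isClosed_zar_iff]
  constructor
  · rintro ⟨F, hF, rfl⟩
    refine ⟨F, ?_⟩
    ext p
    simp only [Set.mem_ofPred_eq]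
    refine forall₂_congr fun f hf => ?_
    obtain ⟨d, hd⟩ := hF f hf
    exact (Pool.Agent.L0h15.MA.mem_lineIdeal_of_homogeneous hd).symm
  · rintro ⟨F, rfl⟩
    refine ⟨{h | ∃ f ∈ F, ∃ d, h = homogeneousComponent d f}, ?_, ?_⟩
    · rintro _ ⟨f, -, d, rfl⟩
      exact ⟨d, homogeneousComponent_isHomogeneous d f⟩
    · ext p
      simp only [Set.mem_ofPred_eq]
      constructor
      · rintro hp _ ⟨f, hf, d, rfl⟩
        have h4 := hp f hf
        rw [Pool.Agent.L0h15.MA.mem_lineIdeal, Pool.Agent.L0h15.MZ.forall_smul_iff] at h4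
        exact h4 d
      · intro hp f hf
        rw [Pool.Agent.L0h15.MA.mem_lineIdeal, Pool.Agent.L0h15.MZ.forall_smul_iff]
        exact fun d => hp _ ⟨f, hf, d, rfl⟩

theorem isIrreducibleSet_of [Infinite K] {S : Set (MvPolynomial (Fin (n + 1)) K)}
    {Z : Set (Points S)}
    (h : IsClosed[Pool.Agent.L0h15.MA.zar (fun p : Points S => p.1.rep)] Z)
    (h' : @IsIrreducible (Points S) (Pool.Agent.L0h15.MA.zar (fun p : Points S => p.1.rep)) Z) :
    IsIrreducibleSet Z := by
  let _ := Pool.Agent.L0h15.MA.zar (fun p : Points S => p.1.rep)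
  refine ⟨(isClosedSet_iff Z).2 h, h'.nonempty, fun A B hA hB => ?_⟩
  exact isPreirreducible_iff_isClosed_union_isClosed.1 h'.isPreirreducible A B
    ((isClosedSet_iff A).1 hA) ((isClosedSet_iff B).1 hB)

end

/-- **Mazur's question for varieties with automorphisms.** -/
theorem result (K : Type) [Field K] [NumberField K] (n : ℕ)
    (S : Set (MvPolynomial (Fin (n + 1)) K)) (hS : ∀ f ∈ S, ∃ d : ℕ, f.IsHomogeneous d)
    (Γ : Type) [Group Γ] [MulAction Γ (Points S)]
    (hΓ : ∀ γ : Γ, IsMorphism S (fun p => γ • p)) :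
    (∀ (L : Type) [NontriviallyNormedField L] [CompleteSpace L] (σ : K →+* L), DenseRange σ →
      IsEquicontinuous σ S Γ →
      -- (1) the sets `Z_x` are periodic
      (∀ x : Fin (n + 1) → L, x ≠ 0 → IsPeriodic Γ (localClosure σ S x)) ∧
      -- (2) the rational points outside of `Y` lie in finitely many orbits
      (∀ S' : Set (MvPolynomial (Fin (n + 1)) K), (∀ f ∈ S', ∃ d : ℕ, f.IsHomogeneous d) →
        ∀ E : Finset (Points S), (∀ p : Points S, p ∈ subset S S' ∨ ∃ e ∈ E, ∃ γ : Γ, p = γ • e) →
        (localIdeals σ (S ∪ S')).Finite → (localIdeals σ S).Finite) ∧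
      -- (3) almost all periodic irreducible closed subsets are contained in `Y`
      (∀ S' : Set (MvPolynomial (Fin (n + 1)) K), (∀ f ∈ S', ∃ d : ℕ, f.IsHomogeneous d) →
        {Z : Set (Points S) | IsIrreducibleSet Z ∧ IsPeriodic Γ Z ∧ ¬ Z ⊆ subset S S'}.Finite →
        (localIdeals σ (S ∪ S')).Finite → (localIdeals σ S).Finite)) ∧
    -- (4) equicontinuity at the places where generators have good reduction
    (∀ (L : Type) [NontriviallyNormedField L] [IsUltrametricDist L] (σ : K →+* L) (R : Set Γ),
      Subgroup.closure R = ⊤ →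
      (∀ γ ∈ R, HasGoodReduction σ S (fun p => γ • p) ∧
        HasGoodReduction σ S (fun p => γ⁻¹ • p)) → IsEquicontinuous σ S Γ) ∧
    -- (5) equicontinuity at almost all places
    (Group.FG Γ → ∃ F : Finset K, ∀ (L : Type) [NontriviallyNormedField L] [IsUltrametricDist L]
      (σ : K →+* L), (∀ a ∈ F, ‖σ a‖ ≤ 1) → IsEquicontinuous σ S Γ) ∧
    -- (6) equicontinuity at all places
    (InFamily S Γ → ∀ (L : Type) [NontriviallyNormedField L] [CompleteSpace L] (σ : K →+* L),
      DenseRange σ → IsEquicontinuous σ S Γ) ∧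
    -- (7) the consequence of (3) and (5)
    (Group.FG Γ → ∀ S' : Set (MvPolynomial (Fin (n + 1)) K),
      (∀ f ∈ S', ∃ d : ℕ, f.IsHomogeneous d) →
      {Z : Set (Points S) | IsIrreducibleSet Z ∧ IsPeriodic Γ Z ∧ ¬ Z ⊆ subset S S'}.Finite →
      ∃ F : Finset K, ∀ (L : Type) [NontriviallyNormedField L] [CompleteSpace L]
        [IsUltrametricDist L] (σ : K →+* L), DenseRange σ → (∀ a ∈ F, ‖σ a‖ ≤ 1) →
        (localIdeals σ (S ∪ S')).Finite → (localIdeals σ S).Finite) := by
  have hp := param hS
  have hmor : ∀ γ : Γ, Pool.Agent.L0h15.MA.IsMor (fun p : Points S => p.1.rep)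
      (fun p => γ • p) := fun γ => Pool.Agent.L0h15.MA.isMor_of_isMorS hp.ne_zero hp.mem (hΓ γ)
  have h3 : ∀ (L : Type) [NontriviallyNormedField L] [CompleteSpace L] (σ : K →+* L),
      DenseRange σ → IsEquicontinuous σ S Γ →
      ∀ S' : Set (MvPolynomial (Fin (n + 1)) K), (∀ f ∈ S', ∃ d : ℕ, f.IsHomogeneous d) →
        {Z : Set (Points S) | IsIrreducibleSet Z ∧ IsPeriodic Γ Z ∧ ¬ Z ⊆ subset S S'}.Finite →
        (localIdeals σ (S ∪ S')).Finite → (localIdeals σ S).Finite := by
    intro L _ _ σ hσ heq S' hS' hfin hY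
    have := Pool.Agent.W279.Tri.properSpace_of_denseRange σ hσ
    refine Pool.Agent.L0h15.MA.finite_of_periodic (Γ := Γ) hp hS heq hmor hS' ?_ hY
    refine hfin.subset ?_
    rintro Z ⟨h1, h2, h3, h4⟩
    exact ⟨isIrreducibleSet_of h1 h2, h3, h4⟩
  have h5 : Group.FG Γ → ∃ F : Finset K, ∀ (L : Type) [NontriviallyNormedField L]
      [IsUltrametricDist L] (σ : K →+* L), (∀ a ∈ F, ‖σ a‖ ≤ 1) → IsEquicontinuous σ S Γ :=
    fun hfg => Pool.Agent.L0h15.MA.equiCont_almost_all hfg hp.ne_zero hp.mem hS hΓ
  refine ⟨?_, ?_, h5, ?_, ?_⟩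
  · intro L _ _ σ hσ heq
    have := Pool.Agent.W279.Tri.properSpace_of_denseRange σ hσ
    refine ⟨?_, ?_, h3 L σ hσ heq⟩
    · intro x hx
      exact Pool.Agent.L0h15.MA.almostStable_local hp heq hmor hx
    · intro S' hS' E hE hY
      exact Pool.Agent.L0h15.MA.finite_of_orbits hp hS heq hmor hS' E hE hY
  · intro L _ _ σ R hR hg
    exact Pool.Agent.L0h15.MA.equiCont_of_generators hp.ne_zero hR hg
  · intro hfam L _ _ σ hσ
    have := Pool.Agent.W279.Tri.properSpace_of_denseRange σ hσ
    exact Pool.Agent.L0h15.MA.equiCont_of_family σ hp.ne_zero hp.mem hS hfam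
  · intro hfg S' hS' hfin
    obtain ⟨F, hF⟩ := h5 hfg
    exact ⟨F, fun L _ _ _ σ hσ ha => h3 L σ hσ (hF L σ ha) S' hS' hfin⟩

end Pool.Agent.Results.MP_f9f755_nt.AutomorphismGroups
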