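import Mathlib
import Pool.Agent.L0h15.MZ.OrbMain

/-!
# Mazur's question for varieties with a linear action with finitely many orbits

`K` is a number field, `L` is the completion of `K` at a place, `X` is a closed subset of `ℙⁿ` over
`K`, for instance an irreducible projective variety, which may be singular. For a point `x` of
`X(L)` let `Z_x` be the local Zariski closure of the rational points at `x`, the intersection of the
Zariski closures of the sets `X(K) ∩ U`, where `U` runs through the neighbourhoods of `x`. Mazur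
asks if there are only finitely many different sets `Z_x`.

Let `G` be a connected linear algebraic group over `K` which acts linearly on `ℙⁿ` and preserves
`X`. It is given by a rational family: the matrix `Φ` has entries in `K[t_1, ..., t_N]` and its
determinant is not zero, and `G` is generated by all `Φ(a) Φ(b)⁻¹`. The connected linear algebraic
groups over `K` are unirational, so all of them can be given in this way.

(1) All sets `Z_x` are stable under `G`, over the algebraic closure of `K`.

(2) If the `K`-rational points of `X` lie in finitely many orbits of `G` over the algebraic closure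
(the orbits of the points in a finite set `E`), then `Z_x` is the Zariski closure of the union
of those orbits which have `K`-rational points arbitrarily close to `x`, and there are at most
`2 ^ |E|` different sets `Z_x`: Mazur's question has a positive answer. In particular this holds if
`G` has only finitely many orbits on `X`, so for all toric varieties, flag varieties, spherical
varieties, and their singular or nonsplit forms.

(3) If `Y` is a closed subset of `X` and the `K`-rational points of `X` outside `Y` lie in finitely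
many orbits of `G`, then the answer to Mazur's question is positive for `X` if it is for `Y`.

Idea of the proof. Let `f` vanish at all `K`-rational points of `X` near `x`. For a `K`-rational
point `y` near `x`, consider `f (Φ(a) Φ(b)⁻¹ y)` as a rational function of `a` and `b`. It vanishes
at all `K`-rational `(a, b)` near a point of the diagonal, hence everywhere. So the space of the
polynomials, with coefficients in the algebraic closure, which vanish at the `K`-rational points
near `x` is stable under `G`.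
-/

set_option autoImplicit false

open MvPolynomial Matrix Topology

namespace Pool.Agent.Results.MP_f9f755_nt.FinitelyManyOrbits

section

variable {K : Type} [Field K] {n : ℕ}

/-- the value at `a` of the matrix of polynomials `Φ` -/
noncomputable def value {N : ℕ} (Φ : Matrix (Fin (n + 1)) (Fin (n + 1)) (MvPolynomial (Fin N) K))
    (a : Fin N → AlgebraicClosure K) : Matrix (Fin (n + 1)) (Fin (n + 1)) (AlgebraicClosure K) :=
  Φ.map (aeval a)

/-- the group `G` generated by all `Φ(a) Φ(b)⁻¹`, over the algebraic closure of `K` -/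
noncomputable def group {N : ℕ} (Φ : Matrix (Fin (n + 1)) (Fin (n + 1)) (MvPolynomial (Fin N) K)) :
    Subgroup (GL (Fin (n + 1)) (AlgebraicClosure K)) :=
  Subgroup.closure {g | ∃ a b : Fin N → AlgebraicClosure K, (value Φ b).det ≠ 0 ∧
    (g : Matrix (Fin (n + 1)) (Fin (n + 1)) (AlgebraicClosure K)) * value Φ b = value Φ a}

/-- The closed set `X` defined by `S` is stable under `G`. -/
def Stable {N : ℕ} (Φ : Matrix (Fin (n + 1)) (Fin (n + 1)) (MvPolynomial (Fin N) K))
    (S : Set (MvPolynomial (Fin (n + 1)) K)) : Prop :=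
  ∀ g ∈ group Φ, ∀ v : Fin (n + 1) → AlgebraicClosure K, (∀ s ∈ S, aeval v s = 0) →
    ∀ s ∈ S, aeval ((g : Matrix (Fin (n + 1)) (Fin (n + 1)) (AlgebraicClosure K)) *ᵥ v) s = 0

/-- The `K`-point `y` of `ℙⁿ` lies in the orbit under `G` of the point `e`. -/
def InOrbit {N : ℕ} (Φ : Matrix (Fin (n + 1)) (Fin (n + 1)) (MvPolynomial (Fin N) K))
    (e : Fin (n + 1) → AlgebraicClosure K) (y : Fin (n + 1) → K) : Prop :=
  ∃ g ∈ group Φ, ∃ c : AlgebraicClosure K, (fun i => algebraMap K (AlgebraicClosure K) (y i)) =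
    fun i => c * ((g : Matrix (Fin (n + 1)) (Fin (n + 1)) (AlgebraicClosure K)) *ᵥ e) i

/-- the polynomials which vanish on the orbit under `G` of the point `e` of `ℙⁿ` -/
def orbitIdeal {N : ℕ} (Φ : Matrix (Fin (n + 1)) (Fin (n + 1)) (MvPolynomial (Fin N) K))
    (e : Fin (n + 1) → AlgebraicClosure K) : Set (MvPolynomial (Fin (n + 1)) K) :=
  {f | ∀ g ∈ group Φ, ∀ c : AlgebraicClosure K,
    aeval (fun i => c * ((g : Matrix (Fin (n + 1)) (Fin (n + 1)) (AlgebraicClosure K)) *ᵥ e) i)
      f = 0}

variable {L : Type} [NontriviallyNormedField L] (σ : K →+* L)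

/-- the ideal of `Z_x`: the polynomials which vanish at all `K`-points of `X` near `x` -/
def localIdeal (S : Set (MvPolynomial (Fin (n + 1)) K)) (x : Fin (n + 1) → L) :
    Set (MvPolynomial (Fin (n + 1)) K) :=
  {f | ∃ U ∈ 𝓝 x, ∀ y : Fin (n + 1) → K, y ≠ 0 → (∀ g ∈ S, eval y g = 0) →
    (∃ c : L, c ≠ 0 ∧ (fun i => c * σ (y i)) ∈ U) → ∀ t : K, eval (t • y) f = 0}

/-- the set of the ideals of the sets `Z_x`, for all points `x` of `X(L)` -/
def localIdeals (S : Set (MvPolynomial (Fin (n + 1)) K)) :
    Set (Set (MvPolynomial (Fin (n + 1)) K)) :=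
  {J | ∃ x : Fin (n + 1) → L, x ≠ 0 ∧ (∀ g ∈ S, eval₂ σ x g = 0) ∧ J = localIdeal σ S x}

/-- The orbit of `e` has `K`-points arbitrarily close to `x`. -/
def Accumulates {N : ℕ} (Φ : Matrix (Fin (n + 1)) (Fin (n + 1)) (MvPolynomial (Fin N) K))
    (S : Set (MvPolynomial (Fin (n + 1)) K)) (e : Fin (n + 1) → AlgebraicClosure K)
    (x : Fin (n + 1) → L) : Prop :=
  ∀ U ∈ 𝓝 x, ∃ y : Fin (n + 1) → K, y ≠ 0 ∧ (∀ g ∈ S, eval y g = 0) ∧
    (∃ c : L, c ≠ 0 ∧ (fun i => c * σ (y i)) ∈ U) ∧ InOrbit Φ e y

end

/-- **Mazur's question for varieties on which a connected linear algebraic group acts with finitely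
many orbits.** -/
theorem result (K : Type) [Field K] [NumberField K] (L : Type) [NontriviallyNormedField L]
    [CompleteSpace L] (σ : K →+* L) (hσ : DenseRange σ) (n N : ℕ)
    (S : Set (MvPolynomial (Fin (n + 1)) K)) (hS : ∀ f ∈ S, ∃ d : ℕ, f.IsHomogeneous d)
    (Φ : Matrix (Fin (n + 1)) (Fin (n + 1)) (MvPolynomial (Fin N) K)) (hΦ : Φ.det ≠ 0)
    (hst : Stable Φ S) :
    -- (1) the sets `Z_x` are stable under `G`
    (∀ x : Fin (n + 1) → L, ∀ g ∈ group Φ, ∀ v : Fin (n + 1) → AlgebraicClosure K,
      (∀ f ∈ localIdeal σ S x, aeval v f = 0) → ∀ f ∈ localIdeal σ S x,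
        aeval ((g : Matrix (Fin (n + 1)) (Fin (n + 1)) (AlgebraicClosure K)) *ᵥ v) f = 0) ∧
    -- (2) the `K`-points of `X` lie in finitely many orbits
    (∀ E : Finset (Fin (n + 1) → AlgebraicClosure K),
      (∀ y : Fin (n + 1) → K, y ≠ 0 → (∀ g ∈ S, eval y g = 0) → ∃ e ∈ E, InOrbit Φ e y) →
      (∀ x : Fin (n + 1) → L, localIdeal σ S x =
        {f | ∀ e ∈ E, Accumulates σ Φ S e x → f ∈ orbitIdeal Φ e}) ∧
      (localIdeals σ S).Finite ∧ (localIdeals σ S).ncard ≤ 2 ^ E.card) ∧
    -- (3) the `K`-points of `X` outside of the set defined by `S'` lie in finitely many orbits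
    (∀ S' : Set (MvPolynomial (Fin (n + 1)) K), (∀ f ∈ S', ∃ d : ℕ, f.IsHomogeneous d) →
      ∀ E : Finset (Fin (n + 1) → AlgebraicClosure K),
      (∀ y : Fin (n + 1) → K, y ≠ 0 → (∀ g ∈ S, eval y g = 0) →
        (∀ g ∈ S', eval y g = 0) ∨ ∃ e ∈ E, InOrbit Φ e y) →
      (localIdeals σ (S ∪ S')).Finite → (localIdeals σ S).Finite) := by
  classical
  obtain ⟨p, hp⟩ := Pool.Agent.L0h15.MZ.det_value Φ hΦ
  refine ⟨?_, ?_, ?_⟩
  · intro x g hg v hv f hf
    have h1 := Pool.Agent.L0h15.MZ.near_of_localIdeal (F := AlgebraicClosure K) σ hf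
    have h2 := (Pool.Agent.L0h15.MZ.near_group σ Φ hσ S p hp (fun a b ha hb y hy g hg =>
      Pool.Agent.L0h15.MZ.stable_K Φ S hS hst a b ha hb y hy g hg) g hg).1 _ h1
    have h3 := Pool.Agent.L0h15.MZ.eval_eq_zero_of_comp _ v fun φ =>
      hv _ (Pool.Agent.L0h15.MZ.localIdeal_of_near σ h2 φ)
    rw [Pool.Agent.L0h15.MZ.eval_sub, eval_map, ← aeval_def] at h3
    exact h3
  · intro E hE
    have h1 : ∀ x : Fin (n + 1) → L, localIdeal σ S x =
        {f | ∀ e ∈ E, Accumulates σ Φ S e x → f ∈ orbitIdeal Φ e} := by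
      intro x
      have h2 := Pool.Agent.L0h15.MZ.localIdeal_eq σ Φ hσ hS hΦ hst {1} E
        (fun y hy0 hyS => Or.inr (hE y hy0 hyS)) x
      have h3 : Pool.Agent.L0h15.MZ.localIdeal σ (S ∪ {1}) x = Set.univ := by
        refine Set.eq_univ_of_forall fun f => ⟨Set.univ, Filter.univ_mem, ?_⟩
        intro y _ hyS
        have h4 := hyS 1 (Or.inr rfl)
        rw [map_one] at h4
        exact absurd h4 one_ne_zero
      rw [h3, Set.univ_inter] at h2
      exact h2
    have h2 : localIdeals σ S ⊆ (fun T : Finset (Fin (n + 1) → AlgebraicClosure K) =>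
        {f | ∀ e ∈ T, f ∈ orbitIdeal Φ e}) '' (E.powerset : Set (Finset _)) := by
      rintro J ⟨x, -, -, rfl⟩
      refine ⟨E.filter fun e => Accumulates σ Φ S e x, ?_, ?_⟩
      · rw [Finset.mem_coe, Finset.mem_powerset]
        exact Finset.filter_subset _ _
      · rw [h1 x]
        ext f
        simp only [Finset.mem_filter, Set.mem_ofPred_eq, and_imp]
    have h3 : ((fun T : Finset (Fin (n + 1) → AlgebraicClosure K) =>
        {f | ∀ e ∈ T, f ∈ orbitIdeal Φ e}) '' (E.powerset : Set (Finset _))).Finite :=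
      E.powerset.finite_toSet.image _
    refine ⟨h1, h3.subset h2, ?_⟩
    refine (Set.ncard_le_ncard h2 h3).trans ((Set.ncard_image_le E.powerset.finite_toSet).trans ?_)
    rw [Set.ncard_coe_finset, Finset.card_powerset]
  · intro S' hS' E hE hfin
    have h1 := Pool.Agent.L0h15.MZ.localIdeal_eq σ Φ hσ hS hΦ hst S' E hE
    have h2 : localIdeals σ S ⊆
        (fun T : Set (MvPolynomial (Fin (n + 1)) K) × Finset (Fin (n + 1) → AlgebraicClosure K) =>
          T.1 ∩ {f | ∀ e ∈ T.2, f ∈ orbitIdeal Φ e}) ''
            ((localIdeals σ (S ∪ S') ∪ {Set.univ}) ×ˢ (E.powerset : Set (Finset _))) := by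
      rintro J ⟨x, hx0, hxS, rfl⟩
      refine ⟨(localIdeal σ (S ∪ S') x, E.filter fun e => Accumulates σ Φ S e x), ⟨?_, ?_⟩, ?_⟩
      · by_cases hx : ∀ g ∈ S', eval₂ σ x g = 0
        · exact Or.inl ⟨x, hx0, fun g hg => hg.elim (hxS g) (hx g), rfl⟩
        · push Not at hx
          obtain ⟨s, hs, hsx⟩ := hx
          obtain ⟨d, hd⟩ := hS' s hs
          exact Or.inr (Pool.Agent.L0h15.MZ.localIdeal_univ σ (Or.inr hs) hd hsx)
      · rw [Finset.mem_coe, Finset.mem_powerset]
        exact Finset.filter_subset _ _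
      · have h3 : localIdeal σ S x = localIdeal σ (S ∪ S') x ∩
            {f | ∀ e ∈ E, Accumulates σ Φ S e x → f ∈ orbitIdeal Φ e} := h1 x
        rw [h3]
        ext f
        simp only [Finset.mem_filter, Set.mem_ofPred_eq, and_imp, Set.mem_inter_iff]
    exact (((hfin.union (Set.finite_singleton _)).prod E.powerset.finite_toSet).image _).subset h2

end Pool.Agent.Results.MP_f9f755_nt.FinitelyManyOrbits
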