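import Mathlib
import Pool.Agent.L0h15.MD.Bir
import Pool.Agent.L0h15.MD.Ind
import Pool.Agent.L0h15.MD.GDPf
import Pool.Agent.L0h15.MD.Cone
import Pool.Agent.L0h15.MD.Seg
import Pool.Agent.L0h15.MD.Hyp
import Pool.Agent.L0h15.MZ.Weil

/-!
# Mazur's question, generic local density and Diophantine sets

Let `K` be a number field and `L` its completion at a place `v`. The following are equivalent.

* Mazur's question has a positive answer for `K` and `v`: for every irreducible closed subset `X`
  of a projective space over `K` there are only finitely many local Zariski closures `Z_x` of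
  `X(K)`, for `x` in `X(L)` (`MazurAt`).
* *Generic local density for hypersurfaces*: for every irreducible polynomial `F` over `K` there is
  a polynomial `G`, not divisible by `F`, such that for every rational zero `p` of `F` with
  `G(p) ≠ 0` the rational zeros of `F` near `p` are Zariski dense in the hypersurface `F = 0`
  (`GenericDensity`). So in Mazur's question only the rational points `x` matter, only for affine
  hypersurfaces, and outside of a proper closed subset `Z_x` should be everything.
* The same for all irreducible closed subsets of affine spaces (`GenericDensityAll`).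
* *Diophantine sets*: every Diophantine subset of `K ^ m`, for every `m`, has only finitely many
  local Zariski closures at the points of `L ^ m` (`DiophantineFiniteness`).

By the transfer from `ℚ` to number fields, generic local density for hypersurfaces over `ℚ` at a
place `p` is equivalent to generic local density for hypersurfaces over all number fields at all
places above `p`. So Mazur's question, for all number fields, all places and all irreducible
projective varieties, is equivalent to generic local density for the hypersurfaces over `ℚ`.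
-/

set_option autoImplicit false

open MvPolynomial

namespace Pool.Agent.Results.MP_f9f755_nt.GenericLocalDensity

section definitions

variable {K L : Type} [Field K] [NontriviallyNormedField L]

/-- The local Zariski closures `Z_x` of the `K`-points of the closed subset `X` of `ℙⁿ` defined by
`S`, for all `L`-points `x` of `X`, take only finitely many values. -/
def FinitelyManyClosures (σ : K →+* L) {n : ℕ} (S : Set (MvPolynomial (Fin (n + 1)) K)) : Prop :=
  {J : Set (MvPolynomial (Fin (n + 1)) K) |
    ∃ x : Fin (n + 1) → L, x ≠ 0 ∧ (∀ g ∈ S, eval₂ σ x g = 0) ∧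
      J = {f : MvPolynomial (Fin (n + 1)) K |
        ∃ U ∈ nhds x, ∀ y : Fin (n + 1) → K, y ≠ 0 → (∀ g ∈ S, eval y g = 0) →
          (∃ c : L, c ≠ 0 ∧ (fun i => c * σ (y i)) ∈ U) →
          ∀ t : K, eval (t • y) f = 0}}.Finite

/-- Mazur's question for the field `K` and the place given by `σ` has a positive answer. -/
def MazurAt (σ : K →+* L) : Prop :=
  ∀ (n : ℕ) (S : Set (MvPolynomial (Fin (n + 1)) K)),
    (∀ f ∈ S, ∃ d : ℕ, f.IsHomogeneous d) → (Ideal.span S).radical.IsPrime →
    FinitelyManyClosures σ S

/-- The ideal of the local Zariski closure at `x` of the set `D` of points of `K ^ m`: the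
polynomials vanishing at all points of `D` in some neighbourhood of `x`. -/
def localIdeal (σ : K →+* L) {m : ℕ} (D : Set (Fin m → K)) (x : Fin m → L) :
    Set (MvPolynomial (Fin m) K) :=
  {f | ∃ U ∈ nhds x, ∀ y ∈ D, (fun i => σ (y i)) ∈ U → eval y f = 0}

/-- Generic local density for hypersurfaces: for every irreducible `F` there is a `G`, not
divisible by `F`, so that for all rational zeros `p` of `F` with `G(p) ≠ 0` the polynomials
vanishing at all rational zeros of `F` near `p` are multiples of `F`. -/
def GenericDensity (σ : K →+* L) : Prop :=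
  ∀ (m : ℕ) (F : MvPolynomial (Fin m) K), Irreducible F →
    ∃ G : MvPolynomial (Fin m) K, ¬ F ∣ G ∧
      ∀ p : Fin m → K, eval p F = 0 → eval p G ≠ 0 →
        ∀ H ∈ localIdeal σ {y | eval y F = 0} (fun i => σ (p i)), F ∣ H

/-- Generic local density for all irreducible closed subsets of affine spaces. -/
def GenericDensityAll (σ : K →+* L) : Prop :=
  ∀ (m : ℕ) (P : Ideal (MvPolynomial (Fin m) K)), P.IsPrime →
    ∃ G : MvPolynomial (Fin m) K, G ∉ P ∧
      ∀ p : Fin m → K, (∀ g ∈ P, eval p g = 0) → eval p G ≠ 0 →
        ∀ H ∈ localIdeal σ {y | ∀ g ∈ P, eval y g = 0} (fun i => σ (p i)), H ∈ P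

/-- Diophantine subsets of `K ^ m`: projections of sets of solutions of polynomial equations. -/
def IsDiophantine {m : ℕ} (D : Set (Fin m → K)) : Prop :=
  ∃ (r : ℕ) (T : Set (MvPolynomial (Fin m ⊕ Fin r) K)),
    D = {y | ∃ z : Fin r → K, ∀ g ∈ T, eval (Sum.elim y z) g = 0}

/-- Every Diophantine set has only finitely many local Zariski closures. -/
def DiophantineFiniteness (σ : K →+* L) : Prop :=
  ∀ (m : ℕ) (D : Set (Fin m → K)), IsDiophantine D →
    {J | ∃ x : Fin m → L, J = localIdeal σ D x}.Finite

end definitions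

/-- **Mazur's question is equivalent to generic local density for hypersurfaces over `ℚ`, and to
the finiteness of the local Zariski closures of all Diophantine sets.** -/
theorem result :
    -- (1) for each number field and each place
    (∀ (K : Type) [Field K] [NumberField K] (L : Type) [NontriviallyNormedField L]
      [CompleteSpace L] (σ : K →+* L), DenseRange σ →
      (MazurAt σ ↔ GenericDensity σ) ∧ (MazurAt σ ↔ GenericDensityAll σ) ∧
      (MazurAt σ ↔ DiophantineFiniteness σ)) ∧
    -- (2) from `ℚ` to all number fields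
    (∀ (A : Type) [NontriviallyNormedField A] [CompleteSpace A] (τ : ℚ →+* A), DenseRange τ →
      (GenericDensity τ ↔
        ∀ (K : Type) [Field K] [NumberField K] (L : Type) [NontriviallyNormedField L]
          [CompleteSpace L] (σ : K →+* L), DenseRange σ → ∀ θ : A →+* L, Continuous θ →
          GenericDensity σ)) ∧
    -- (3) Mazur's question
    ((∀ (K : Type) [Field K] [NumberField K] (L : Type) [NontriviallyNormedField L]
        [CompleteSpace L] (σ : K →+* L), DenseRange σ →
      ∀ (n : ℕ) (S : Set (MvPolynomial (Fin (n + 1)) K)),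
        (∀ f ∈ S, ∃ d : ℕ, f.IsHomogeneous d) →
        (Ideal.span S).radical.IsPrime →
        {J : Set (MvPolynomial (Fin (n + 1)) K) |
          ∃ x : Fin (n + 1) → L, x ≠ 0 ∧ (∀ g ∈ S, MvPolynomial.eval₂ σ x g = 0) ∧
            J = {f : MvPolynomial (Fin (n + 1)) K |
              ∃ U ∈ nhds x, ∀ y : Fin (n + 1) → K, y ≠ 0 →
                (∀ g ∈ S, MvPolynomial.eval y g = 0) →
                (∃ c : L, c ≠ 0 ∧ (fun i => c * σ (y i)) ∈ U) →
                ∀ t : K, MvPolynomial.eval (t • y) f = 0}}.Finite) ↔
      ∀ (A : Type) [NontriviallyNormedField A] [CompleteSpace A] (τ : ℚ →+* A), DenseRange τ →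
        GenericDensity τ) := by
  have hGD : ∀ (K : Type) [Field K] [NumberField K] (L : Type) [NontriviallyNormedField L]
      (σ : K →+* L), MazurAt σ → Pool.Agent.L0h15.MD.GD σ := by
    intro K _ _ L _ σ h
    have : Infinite K := inferInstance
    refine Pool.Agent.L0h15.MD.gd_of_hypersurfaces fun n F d hF hirr => ?_
    refine h n {F} ?_ ?_
    · rintro f rfl
      exact ⟨d, hF⟩
    · have h2 : (Ideal.span {F}).IsPrime :=
        (Ideal.span_singleton_prime hirr.ne_zero).2 hirr.prime
      rw [h2.radical]
      exact h2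
  have hGDP : ∀ (K : Type) [Field K] [NumberField K] (L : Type) [NontriviallyNormedField L]
      (σ : K →+* L), Pool.Agent.L0h15.MD.GD σ → Pool.Agent.L0h15.MD.GDP σ := by
    intro K _ _ L _ σ h
    exact Pool.Agent.L0h15.MD.GDPf Pool.Agent.L0h15.MD.Bir K L σ h
  have hPF : ∀ (K : Type) [Field K] [NumberField K] (L : Type) [NontriviallyNormedField L]
      (σ : K →+* L), Pool.Agent.L0h15.MD.GDP σ → Pool.Agent.L0h15.MD.PF σ := by
    intro K _ _ L _ σ h
    exact Pool.Agent.L0h15.MD.Cone K L σ (Pool.Agent.L0h15.MD.ind K L σ h)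
  have hM : ∀ (K : Type) [Field K] [NumberField K] (L : Type) [NontriviallyNormedField L]
      (σ : K →+* L), Pool.Agent.L0h15.MD.PF σ → MazurAt σ := by
    intro K _ _ L _ σ h n S hS _
    exact h (Fin (n + 1)) S hS
  have hDF : ∀ (K : Type) [Field K] [NumberField K] (L : Type) [NontriviallyNormedField L]
      [CompleteSpace L] (σ : K →+* L), DenseRange σ →
      Pool.Agent.L0h15.MD.PF σ → Pool.Agent.L0h15.MD.DF σ := by
    intro K _ _ L _ _ σ hσ h
    have : ProperSpace L := Pool.Agent.W279.Tri.properSpace_of_denseRange σ hσ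
    exact Pool.Agent.L0h15.MD.Seg K L σ h
  have hDG : ∀ (K : Type) [Field K] [NumberField K] (L : Type) [NontriviallyNormedField L]
      (σ : K →+* L), Pool.Agent.L0h15.MD.DF σ → Pool.Agent.L0h15.MD.GD σ :=
    fun K _ _ L _ σ h => Pool.Agent.L0h15.MD.S_Gen_proof K L σ h
  have hT : ∀ (A : Type) [NontriviallyNormedField A] [CompleteSpace A] (τ : ℚ →+* A),
      DenseRange τ → Pool.Agent.L0h15.MD.GD τ →
      ∀ (K : Type) [Field K] [NumberField K] (L : Type) [NontriviallyNormedField L]
        [CompleteSpace L] (σ : K →+* L), DenseRange σ → ∀ θ : A →+* L, Continuous θ →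
      Pool.Agent.L0h15.MD.PF σ := by
    intro A _ _ τ hτ h K _ _ L _ _ σ hσ θ hθ κ _ S hS
    have : ProperSpace A := Pool.Agent.W279.Tri.properSpace_of_denseRange τ hτ
    exact Pool.Agent.L0h15.MZ.LIs_transfer τ θ σ hτ hθ
      (fun κ _ S' hS' => hPF ℚ A τ (hGDP ℚ A τ h) κ S' hS') hS
  refine ⟨fun K _ _ L _ _ σ hσ => ⟨⟨hGD K L σ, fun h => hM K L σ (hPF K L σ (hGDP K L σ h))⟩,
    ⟨fun h => hGDP K L σ (hGD K L σ h), fun h => hM K L σ (hPF K L σ h)⟩, fun h => ?_,
    fun h => ?_⟩, fun A _ _ τ hτ => ⟨fun h K _ _ L _ _ σ hσ θ hθ => ?_, fun h => ?_⟩, ?_, ?_⟩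
  · rintro m D ⟨r, T, rfl⟩
    exact hDF K L σ hσ (hPF K L σ (hGDP K L σ (hGD K L σ h))) m r T
  · exact hM K L σ (hPF K L σ (hGDP K L σ (hDG K L σ fun m r T => h m _ ⟨r, T, rfl⟩)))
  · exact hDG K L σ (hDF K L σ hσ (hT A τ hτ h K L σ hσ θ hθ))
  · exact h ℚ A τ hτ (RingHom.id A) continuous_id
  · intro h A _ _ τ hτ
    exact hGD ℚ A τ (h ℚ A τ hτ)
  · intro h K _ _ L _ _ σ hσ n S hS _
    obtain ⟨A, hA1, hA2, τ, θ, hτ, hθ⟩ :=
      Pool.Agent.L0h15.MZ.exists_rat_completion σ hσ
    exact hT A τ hτ (h A τ hτ) K L σ hσ θ hθ (Fin (n + 1)) S hS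

end Pool.Agent.Results.MP_f9f755_nt.GenericLocalDensity
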