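import Mathlib
import Pool.Agent.L0h15.MZ.Weil

/-!
# Mazur's question is equivalent to its special case of quartic hypersurfaces over `ℚ`

For a number field `K`, its completion `L` at a place, and a closed subset `X` of `ℙⁿ` over `K`,
Mazur asks if there are only finitely many local Zariski closures `Z_x` of the rational points of
`X`, for `x` in `X(L)`.

(1) Place by place: fix a place `p` of `ℚ`, with completion `A`. If the answer is positive for all
irreducible quartic hypersurfaces over `ℚ` at the place `p`, then it is positive at all places of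
all number fields `K` above `p`, for all closed subsets `X` of all projective spaces, irreducible
or not. (The place of `K` is above `p` if there is a continuous homomorphism from `A` to `L`.)

(2) So Mazur's question, for all number fields, all places and all irreducible projective
varieties, has a positive answer if and only if it has a positive answer for all irreducible quartic
hypersurfaces over `ℚ`, at all places of `ℚ`.

The degree four is the best possible in the following sense: for all hypersurfaces of degree at most
three, over all number fields, the answer is positive (`CubicHypersurfaces`).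

Idea of the proof. From quartic forms to systems of quadratic forms over `ℚ`: sums of squares and, for
the reducible quartic forms, the theorem for the degrees at most three. From these to
systems of forms of degree `2 ^ k`, hence to all closed sets: Veronese embeddings. From `ℚ` to a number
field `K` with basis `ω_j` over `ℚ`: a point of `ℙⁿ(K)` has many representatives over `ℚ`, the
coordinates of the representatives of the point in `Kⁿ⁺¹`. Since `K` is dense in `A ⊗ K`, which is a
product of fields one of which is `L`, we can choose a representative in a compact subset of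
`(A ⊗ K)ⁿ⁺¹`, all of whose points have a non zero component in `Lⁿ⁺¹`. By the compactness the ideal of
`Z_x` is determined by the set of the ideals of the local Zariski closures for the equations of the
Weil restriction, at all points of this compact set above `x`.
-/

set_option autoImplicit false

open MvPolynomial

namespace Pool.Agent.Results.MP_f9f755_nt.QuarticReduction

/-- The local Zariski closures `Z_x` of the `K`-points of the closed subset `X` of `ℙⁿ` defined by
`S`, for all `L`-points `x` of `X`, take only finitely many values. -/
def FinitelyManyClosures {K L : Type} [Field K] [NontriviallyNormedField L] (σ : K →+* L) {n : ℕ}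
    (S : Set (MvPolynomial (Fin (n + 1)) K)) : Prop :=
  {J : Set (MvPolynomial (Fin (n + 1)) K) |
    ∃ x : Fin (n + 1) → L, x ≠ 0 ∧ (∀ g ∈ S, eval₂ σ x g = 0) ∧
      J = {f : MvPolynomial (Fin (n + 1)) K |
        ∃ U ∈ nhds x, ∀ y : Fin (n + 1) → K, y ≠ 0 → (∀ g ∈ S, eval y g = 0) →
          (∃ c : L, c ≠ 0 ∧ (fun i => c * σ (y i)) ∈ U) →
          ∀ t : K, eval (t • y) f = 0}}.Finite

/-- The answer is positive for all irreducible quartic hypersurfaces over `ℚ`, at the place given
by `τ`. -/
def Quartics {A : Type} [NontriviallyNormedField A] (τ : ℚ →+* A) : Prop :=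
  ∀ (n : ℕ) (F : MvPolynomial (Fin (n + 1)) ℚ), F.IsHomogeneous 4 → Irreducible F →
    FinitelyManyClosures τ {F}

/-- **Mazur's question is equivalent to its special case of irreducible quartic hypersurfaces over
`ℚ`.** -/
theorem result :
    -- (1) place by place
    (∀ (A : Type) [NontriviallyNormedField A] [CompleteSpace A] (τ : ℚ →+* A), DenseRange τ →
      (Quartics τ ↔
        ∀ (K : Type) [Field K] [NumberField K] (L : Type) [NontriviallyNormedField L]
          [CompleteSpace L] (σ : K →+* L), DenseRange σ → ∀ θ : A →+* L, Continuous θ →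
        ∀ (n : ℕ) (S : Set (MvPolynomial (Fin (n + 1)) K)),
          (∀ f ∈ S, ∃ d : ℕ, f.IsHomogeneous d) → FinitelyManyClosures σ S)) ∧
    -- (2) Mazur's question
    ((∀ (K : Type) [Field K] [NumberField K] (L : Type) [NontriviallyNormedField L]
        [CompleteSpace L] (σ : K →+* L), DenseRange σ →
      ∀ (n : ℕ) (S : Set (MvPolynomial (Fin (n + 1)) K)),
        (∀ f ∈ S, ∃ d : ℕ, f.IsHomogeneous d) →
        (Ideal.span S).radical.IsPrime →
        {J : Set (MvPolynomial (Fin (n + 1)) K) |
          ∃ x : Fin (n + 1) → L, x ≠ 0 ∧ (∀ g ∈ S, MvPolynomial.eval₂ σ x g = 0) ∧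
            J = {f : MvPolynomial (Fin (n + 1)) K |
              ∃ U ∈ nhds x, ∀ y : Fin (n + 1) → K, y ≠ 0 →
                (∀ g ∈ S, MvPolynomial.eval y g = 0) →
                (∃ c : L, c ≠ 0 ∧ (fun i => c * σ (y i)) ∈ U) →
                ∀ t : K, MvPolynomial.eval (t • y) f = 0}}.Finite) ↔
      ∀ (A : Type) [NontriviallyNormedField A] [CompleteSpace A] (τ : ℚ →+* A), DenseRange τ →
        Quartics τ) := by
  have h1 : ∀ (A : Type) [NontriviallyNormedField A] [CompleteSpace A] (τ : ℚ →+* A),
      DenseRange τ → Quartics τ →
      ∀ (K : Type) [Field K] [NumberField K] (L : Type) [NontriviallyNormedField L]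
        [CompleteSpace L] (σ : K →+* L), DenseRange σ → ∀ θ : A →+* L, Continuous θ →
      ∀ (n : ℕ) (S : Set (MvPolynomial (Fin (n + 1)) K)),
        (∀ f ∈ S, ∃ d : ℕ, f.IsHomogeneous d) → FinitelyManyClosures σ S := by
    intro A _ _ τ hτ hQ K _ _ L _ _ σ hσ θ hθ n S hS
    have : ProperSpace A := Pool.Agent.W279.Tri.properSpace_of_denseRange τ hτ
    refine Pool.Agent.L0h15.MZ.LIs_transfer τ θ σ hτ hθ (fun κ _ S' hS' => ?_) hS
    exact Pool.Agent.L0h15.MZ.LIs_all
      (fun κ _ S hS => Pool.Agent.L0h15.MZ.LIs_quadratic hτ hQ hS) hS'
  refine ⟨fun A _ _ τ hτ => ⟨fun h => h1 A τ hτ h, fun h n F hF _ => ?_⟩, ?_, ?_⟩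
  · refine h ℚ A τ hτ (RingHom.id A) continuous_id n {F} ?_
    rintro f rfl
    exact ⟨4, hF⟩
  · intro h A _ _ τ hτ n F hF hirr
    refine h ℚ A τ hτ n {F} ?_ ?_
    · rintro f rfl
      exact ⟨4, hF⟩
    · have h2 : (Ideal.span {F}).IsPrime :=
        (Ideal.span_singleton_prime hirr.ne_zero).2 hirr.prime
      rw [h2.radical]
      exact h2
  · intro h K _ _ L _ _ σ hσ n S hS _
    obtain ⟨A, hA1, hA2, τ, θ, hτ, hθ⟩ :=
      Pool.Agent.L0h15.MZ.exists_rat_completion σ hσ
    exact h1 A τ hτ (h A τ hτ) K L σ hσ θ hθ n S hS

end Pool.Agent.Results.MP_f9f755_nt.QuarticReduction
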